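import Pool.Agent.MP_04a7d6_ag.StageQ1

/-!
# Non-Weyl (-1)-curves in the blow-up of `ℙⁿ` at `n + 4` general points, `n ≥ 6`
-/

open MvPolynomial

namespace Pool.Agent.Results.MP_04a7d6_ag.NonWeylNPlus4

open Pool.Agent.MP_04a7d6_ag

/-- For every `n ≥ 6` and general points `p_1, …, p_{n+4}` of `ℙⁿ` (that is, for all points outside
the zero locus of one nonzero polynomial `G` in their homogeneous coordinates), the blow-up
`X^n_{n+4}` contains a `(-1)`-curve of class `(4n - 3) h - 4 ∑_{i ≤ n - 6} e_i - 3 ∑_{i > n - 6} e_i`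
(for `n = 6` this is `21 h - 3 ∑ e_i`), and this class is not in the Weyl group orbit of a class
`h - e_i - e_j`. -/
theorem result (n : ℕ) (hn : 6 ≤ n) :
    (∃ G : MvPolynomial (Fin (n + 4) × Fin (n + 1)) ℂ, G ≠ 0 ∧
      ∀ p : Fin (n + 4) → Fin (n + 1) → ℂ, eval (fun x => p x.1 x.2) G ≠ 0 →
        ∃ F : Fin (n + 1) → MvPolynomial (Fin 2) ℂ,
          IsMinusOneCurve p (4 * n - 3) (fun i => if i.val < n - 6 then 4 else 3) F) ∧
      ¬ InLineOrbit n (s := n + 4)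
        (4 * (n : ℤ) - 3, fun i => if i.val < n - 6 then 4 else 3) := by
  obtain ⟨j, rfl⟩ := Nat.exists_eq_add_of_le' hn
  have h1 : 4 * (j + 6) - 3 = 4 * j + 21 := by omega
  have h2 : j + 6 - 6 = j := by omega
  have h3 : 4 * ((j + 6 : ℕ) : ℤ) - 3 = ((4 * j + 21 : ℕ) : ℤ) := by push_cast; ring
  rw [h1, h2, h3]
  exact ⟨exists1 j, not_line1 j⟩

end Pool.Agent.Results.MP_04a7d6_ag.NonWeylNPlus4
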