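import Pool.Agent.MP_04a7d6_ag.StageQ2

/-!
# Non-Weyl (-1)-curves in the blow-up of `ℙⁿ` at `n + 5` general points, `n ≥ 4`
-/

open MvPolynomial

namespace Pool.Agent.Results.MP_04a7d6_ag.NonWeylNPlus5

open Pool.Agent.MP_04a7d6_ag

/-- For every `n ≥ 4` and general points `p_1, …, p_{n+5}` of `ℙⁿ` (that is, for all points outside
the zero locus of one nonzero polynomial `G` in their homogeneous coordinates), the blow-up
`X^n_{n+5}` contains a `(-1)`-curve of class
`(3n - 2) h - 3 ∑_{i ≤ n - 4} e_i - 2 ∑_{n - 4 < i ≤ n + 4} e_i - e_{n + 5}`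
(for `n = 4` this is `10 h - 2 (e_1 + ⋯ + e_8) - e_9`), and this class is not in the Weyl group
orbit of a class `h - e_i - e_j`. -/
theorem result (n : ℕ) (hn : 4 ≤ n) :
    (∃ G : MvPolynomial (Fin (n + 5) × Fin (n + 1)) ℂ, G ≠ 0 ∧
      ∀ p : Fin (n + 5) → Fin (n + 1) → ℂ, eval (fun x => p x.1 x.2) G ≠ 0 →
        ∃ F : Fin (n + 1) → MvPolynomial (Fin 2) ℂ,
          IsMinusOneCurve p (3 * n - 2)
            (fun i => if i.val < n - 4 then 3 else if i.val < n + 4 then 2 else 1) F) ∧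
      ¬ InLineOrbit n (s := n + 5)
        (3 * (n : ℤ) - 2,
          fun i => if i.val < n - 4 then 3 else if i.val < n + 4 then 2 else 1) := by
  obtain ⟨j, rfl⟩ := Nat.exists_eq_add_of_le' hn
  have h1 : 3 * (j + 4) - 2 = 3 * j + 10 := by omega
  have h2 : j + 4 - 4 = j := by omega
  have h3 : 3 * ((j + 4 : ℕ) : ℤ) - 2 = ((3 * j + 10 : ℕ) : ℤ) := by push_cast; ring
  rw [h1, h2, h3]
  exact ⟨exists2 j, not_line2 j⟩

end Pool.Agent.Results.MP_04a7d6_ag.NonWeylNPlus5
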